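import Pool.Agent.Helper25.SignedMin.Main

/-!
# MP_0ca48d_co: exceptional minimisers of signed sumsets

For an `m`-subset `A` of a finite abelian group `G` of order `n`, `h_± A` is the set of all
`∑ c_a a` with integers `c_a`, `∑ |c_a| = h`.  The triple `(G, m, h)` has an exceptional minimiser
if some `m`-subset that is neither symmetric nor near-symmetric nor asymmetric attains
`ρ_±(G, m, h)`.  With `f_d(m, h) = (h ⌈m/d⌉ - h + 1) d`, call a divisor `d` of `n` best if
`f_d(m, h)` is the minimum over all divisors of `n`.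

Theorem: if `m ≤ exp G` (in a cyclic group: always), or `2 |G| ≤ (h + 1) m`, or every best divisor
is realised (`d = |K|` for a subgroup `K` such that `K` and one more element generate a subgroup of
order at least `m`), then `(G, m, h)` has an exceptional minimiser if and only if `m ≥ 3` and some
best `d` satisfies `d ⌈m/d⌉ ≥ m + 2` and, in case `d ≥ m` is a power of two, `G` has an element of
order four.  In a cyclic group the last condition holds automatically.
-/

namespace Pool.Agent.Results.MP_0ca48d_co.CyclicClassification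

open Pool.Agent.Helper25.SignedMin

/-- Exponent range. -/
theorem realised_of_exponent (G : Type) [AddCommGroup G] [Finite G] {m h d : ℕ}
    (hme : m ≤ AddMonoid.exponent G) (hd : IsBest (Nat.card G) m h d) : Realised G m d := by
  obtain ⟨K, hK⟩ := exists_subgroup_card _ G rfl d hd.1
  obtain ⟨g, hg⟩ := AddMonoid.exists_addOrderOf_eq_exponent
    (G := G) (AddMonoid.ExponentExists.of_finite)
  refine ⟨K, g, hK, hme.trans ?_⟩
  rw [← hg]
  have hd0 : 0 < d := by rw [← hK]; exact Nat.card_pos
  apply Nat.le_of_dvd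
  · exact Nat.mul_pos hd0 (addOrderOf_pos _)
  · apply addOrderOf_dvd_of_nsmul_eq_zero
    have h1 : addOrderOf (QuotientAddGroup.mk' K g) • g ∈ K := by
      have : QuotientAddGroup.mk' K (addOrderOf (QuotientAddGroup.mk' K g) • g) = 0 := by
        rw [map_nsmul, addOrderOf_nsmul_eq_zero]
      rwa [← AddMonoidHom.mem_ker, QuotientAddGroup.ker_mk'] at this
    rw [mul_comm, mul_nsmul]
    have h2 : Nat.card K • (⟨_, h1⟩ : K) = 0 := by
      rw [← addOrderOf_dvd_iff_nsmul_eq_zero]
      exact addOrderOf_dvd_natCard _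
    have h3 := congrArg (fun z : K => (z : G)) h2
    rw [hK] at h3
    exact h3

/-- Dense range: a best divisor `d < m` has exactly two cosets. -/
theorem dense_aux {n m h d : ℕ} (hm : 2 ≤ m) (hh : 2 ≤ h) (hmn : m ≤ n)
    (hn : 2 * n ≤ (h + 1) * m) (hd : IsBest n m h d) (hdm : d < m) :
    m ≤ 2 * d ∧ (h + 1) * d ≤ n := by
  have hd0 : 0 < d := Nat.pos_of_dvd_of_pos hd.1 (by omega)
  have h1 := hd.2 n dvd_rfl
  rw [fval_of_le (by omega) hmn, fval_eq (by omega) hd0] at h1
  have hm1 := le_mul_cdiv (m := m) hd0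
  set k := cdiv m d with hk
  have hk2 : 2 ≤ k := by
    by_contra hlt
    have : k ≤ 1 := by omega
    rw [hk, cdiv_le_iff hd0] at this
    omega
  obtain ⟨t, ht⟩ : ∃ t, k = t + 2 := ⟨k - 2, by omega⟩
  rw [ht, show t + 2 - 1 = t + 1 by omega] at h1
  rw [ht] at hm1
  have h2 : 2 * (d * (h * (t + 1) + 1)) ≤ (h + 1) * (d * (t + 2)) :=
    (Nat.mul_le_mul_left 2 h1).trans (hn.trans (Nat.mul_le_mul_left _ hm1))
  have h3 : 2 * (h * (t + 1) + 1) ≤ (h + 1) * (t + 2) := by
    apply Nat.le_of_mul_le_mul_left _ hd0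
    calc d * (2 * (h * (t + 1) + 1)) = 2 * (d * (h * (t + 1) + 1)) := by ring
      _ ≤ (h + 1) * (d * (t + 2)) := h2
      _ = d * ((h + 1) * (t + 2)) := by ring
  have ht0 : t = 0 := by
    by_contra hne
    have : 1 ≤ t := by omega
    nlinarith
  subst ht0
  constructor
  · linarith
  · calc (h + 1) * d = d * (h * (0 + 1) + 1) := by ring
      _ ≤ n := h1

theorem realised_of_le (G : Type) [AddCommGroup G] [Finite G] {m d : ℕ}
    (hd : d ∣ Nat.card G) (hmd : m ≤ d) : Realised G m d := by
  obtain ⟨K, hK⟩ := exists_subgroup_card _ G rfl d hd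
  refine ⟨K, 0, hK, ?_⟩
  rw [map_zero, addOrderOf_zero, mul_one]; exact hmd

theorem realised_of_dense (G : Type) [AddCommGroup G] [Finite G] {m h d : ℕ} (hm : 2 ≤ m)
    (hh : 2 ≤ h) (hmn : m ≤ Nat.card G) (hn : 2 * Nat.card G ≤ (h + 1) * m)
    (hd : IsBest (Nat.card G) m h d) : Realised G m d := by
  rcases Nat.lt_or_ge d m with hdm | hmd
  · obtain ⟨h1, h2⟩ := dense_aux hm hh hmn hn hd hdm
    have hd0 : 0 < d := Nat.pos_of_dvd_of_pos hd.1 (by omega)
    obtain ⟨K, hK⟩ := exists_subgroup_card _ G rfl d hd.1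
    have hlt : Nat.card K < Nat.card G := by rw [hK]; nlinarith
    obtain ⟨g, hg⟩ : ∃ g : G, g ∉ K := by
      by_contra hcon
      push Not at hcon
      have : K = ⊤ := by rw [eq_top_iff]; intro x _; exact hcon x
      rw [this, AddSubgroup.card_top] at hlt
      omega
    refine ⟨K, g, hK, ?_⟩
    have hne : addOrderOf (QuotientAddGroup.mk' K g) ≠ 1 := by
      intro h
      rw [AddMonoid.addOrderOf_eq_one_iff] at h
      apply hg
      rwa [← AddMonoidHom.mem_ker, QuotientAddGroup.ker_mk'] at h
    have hpos : 0 < addOrderOf (QuotientAddGroup.mk' K g) := addOrderOf_pos _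
    have : d * 2 ≤ d * addOrderOf (QuotientAddGroup.mk' K g) := Nat.mul_le_mul_left _ (by omega)
    omega
  · exact realised_of_le G hd.1 hmd

/-- **Classification.** Let `G` be a finite abelian group, `2 ≤ m ≤ |G|` and `2 ≤ h`, and suppose
that `m ≤ exp G` (every `m` if `G` is cyclic), or `2 |G| ≤ (h + 1) m`, or every best divisor is
realised.  Then `(G, m, h)` has an exceptional minimiser if and only if `m ≥ 3` and there is a best
divisor `d` with `d ⌈m/d⌉ ≥ m + 2` such that, if `d ≥ m` is a power of two, `G` has an element of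
order four. -/
theorem result (G : Type) [AddCommGroup G] [Finite G] (m h : ℕ) (hm : 2 ≤ m)
    (hmn : m ≤ Nat.card G) (hh : 2 ≤ h)
    (hyp : m ≤ AddMonoid.exponent G ∨ 2 * Nat.card G ≤ (h + 1) * m ∨
      ∀ d, IsBest (Nat.card G) m h d → Realised G m d) :
    HasExceptionalMinimiser G m h ↔
      3 ≤ m ∧ ∃ d, IsBest (Nat.card G) m h d ∧ m + 2 ≤ d * cdiv m d ∧
        (m ≤ d → (∃ j, d = 2 ^ j) → ∃ x : G, addOrderOf x = 4) := by
  haveI : Fintype G := Fintype.ofFinite G
  apply core hm hmn hh
  intro d hd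
  rcases hyp with h1 | h1 | h1
  · exact realised_of_exponent G h1 hd
  · exact realised_of_dense G hm hh hmn h1 hd
  · exact h1 d hd

end Pool.Agent.Results.MP_0ca48d_co.CyclicClassification
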