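import Pool.Agent.Helper27.EA.FinalB

/-!
# MP_0ca48d_co: exceptional minimisers of signed sumsets in elementary abelian groups

`G` is a finite abelian group with `p g = 0` for all `g` (`p` prime), `h ≥ 2`, `2 ≤ m ≤ |G|`. Write
`q p ^ j < m ≤ (q + 1) p ^ j` with `1 ≤ q < p` (every `m ≥ 2` has this form).

Theorem: `(G, m, h)` has an exceptional minimiser if and only if `p ≠ 2`, `m ≥ 3`,
`m + 2 ≤ (q + 1) p ^ j` or (`p ≤ h q + 1` and `m + 2 ≤ p ^ (j + 1)`), and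
`ρ_±(G, m, h) = min (p, h q + 1) p ^ j`. For `h ≤ 4`, and for all `h` such that the bound `f_d` of
every divisor `d < p ^ j` is at least `min (p, h q + 1) p ^ j`, the value is
`ρ_±(G, m, h) = min (p, h q + 1) p ^ j` except that `ρ_±(G, m, 2) = p ^ (j + 1) - 1` for
`2 q + 1 = p`, `2 m < p ^ (j + 1)`; so the criterion is then explicit.
-/

namespace Pool.Agent.Results.MP_0ca48d_co.ElementaryAbelian

open Pool.Agent.Helper25.SignedMin

theorem result (G : Type) [AddCommGroup G] [Finite G] (p : ℕ) (hp : p.Prime)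
    (hG : ∀ g : G, p • g = 0) :
    (∀ m : ℕ, 2 ≤ m → ∃ j q : ℕ, 1 ≤ q ∧ q < p ∧ q * p ^ j < m ∧ m ≤ (q + 1) * p ^ j) ∧
    ∀ m h j q : ℕ, m ≤ Nat.card G → 2 ≤ h → 1 ≤ q → q < p → q * p ^ j < m →
      m ≤ (q + 1) * p ^ j →
      (HasExceptionalMinimiser G m h ↔ p ≠ 2 ∧ 3 ≤ m ∧
        (m + 2 ≤ (q + 1) * p ^ j ∨ (p ≤ h * q + 1 ∧ m + 2 ≤ p ^ (j + 1))) ∧
        rhoPM G m h = min p (h * q + 1) * p ^ j) ∧
      ((h ≤ 4 ∨ ∀ i, i < j → min p (h * q + 1) * p ^ j ≤ fval m h (p ^ i)) →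
        (rhoPM G m h = if h = 2 ∧ 2 * q + 1 = p ∧ 2 * m < p ^ (j + 1) then p ^ (j + 1) - 1
          else min p (h * q + 1) * p ^ j) ∧
        (HasExceptionalMinimiser G m h ↔ p ≠ 2 ∧ 3 ≤ m ∧
          (m + 2 ≤ (q + 1) * p ^ j ∨ (p ≤ h * q + 1 ∧ m + 2 ≤ p ^ (j + 1))) ∧
          ¬ (h = 2 ∧ 2 * q + 1 = p ∧ 2 * m < p ^ (j + 1)))) := by
  have : Fintype G := Fintype.ofFinite G
  refine ⟨fun m hm => Pool.Agent.Helper27.EA.exists_form hp hm,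
    fun m h j q hmG hh hq hqp h1 h2 => ⟨?_, ?_⟩⟩
  · exact (Pool.Agent.Helper27.EA.final hp hG hh hq hqp hmG h1 h2).1
  · exact Pool.Agent.Helper27.EA.final_b hp hG hh hq hqp hmG h1 h2

end Pool.Agent.Results.MP_0ca48d_co.ElementaryAbelian
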