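import Pool.Agent.Helper25.SignedMin.Main

/-!
# MP_0ca48d_co: a sufficient condition in every finite abelian group

If `d` is the order of a subgroup `K` such that `K` and one more element generate a subgroup of
order at least `m` and `ρ_±(G, m, h) = f_d(m, h) = (h ⌈m/d⌉ - h + 1) d` with `d ⌈m/d⌉ ≥ m + 2`, then
`(G, m, h)` has an exceptional minimiser (`m ≥ 3`, `h ≥ 2`), provided that, in case `d ≥ m` is a
power of two, `G` has an element of order four.
-/

namespace Pool.Agent.Results.MP_0ca48d_co.GeneralSufficiency

open Pool.Agent.Helper25.SignedMin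

theorem result (G : Type) [AddCommGroup G] [Finite G] (m h d : ℕ) (hm : 3 ≤ m) (hh : 2 ≤ h)
    (hr : Realised G m d) (hf : rhoPM G m h = fval m h d) (hsl : m + 2 ≤ d * cdiv m d)
    (h2 : m ≤ d → (∃ j, d = 2 ^ j) → ∃ x : G, addOrderOf x = 4) :
    HasExceptionalMinimiser G m h := by
  haveI : Fintype G := Fintype.ofFinite G
  exact backward hm hh hf.symm hsl hr h2

end Pool.Agent.Results.MP_0ca48d_co.GeneralSufficiency
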